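import Pool.Agent.K3h51.UC.Core

/-!
# The union of two critical graphs

A graph `G` is `k`-critical if its chromatic number is `k` and every proper subgraph has a smaller
chromatic number. Let `f (k, l)` be the maximum of the chromatic number of `G₁ ∪ G₂`, where `G₁` is
`k`-critical and `G₂` is `l`-critical, with vertex sets that overlap arbitrarily. One has
`f (k, l) ≤ (k - 1) (l - 1) + 1`, and Erdős asked whether equality holds for all `k, l ≥ 2`, in
particular whether `f (4, 4) = 10`.

**Theorem.** For all `k ≥ 3` and `l ≥ 4` the union of a `k`-critical graph and an `l`-critical graph is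
`(k - 1) (l - 1)`-colourable. So `f (4, 4) ≤ 9`, and the equality of Erdős holds only if one of the numbers
`k`, `l` is `2` or `k = l = 3` (in these cases it is true).

**Proof.** Let `r = k - 1 ≥ 2` and `s = l - 1 ≥ 3`, let `G`, `H` be the two graphs, and assume that their
union has no colouring with `r s` colours. For an edge `e` of `G` let `C (e)` be the set of the proper
colourings of `G - e` with `r` colours, and for an edge `f` of `H` let `D (f)` be the set of the proper
colourings of `H - f` with `s` colours. The ends of `e` have the same colour for all `c ∈ C (e)`.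

1. A class of some `c ∈ C (e)` never contains all edges of `H` (otherwise `r + s + 1 ≤ r s` colours are
   enough), so the classes of `c` are `s`-colourable in `H`. If the vertices are partitioned into `r`
   sets that are `s`-colourable in `G ∪ H` then `G ∪ H` is `r s`-colourable. So the class of `c` that
   contains `e = x y` together with `e` is not `s`-colourable in `H ∪ {e}`. It follows that if
   `d ∈ D (f)`, `f = a b`, and `d (x) ≠ d (y)` then `x`, `y`, `a`, `b` have the same colour in `c`; and the same
   with the roles of `G` and `H` exchanged.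
2. If `d ∈ D (a b)` and `a z`, `z w` are edges of `G`, `w ≠ a`, then `d (z) = d (w)`: otherwise by 1 the
   adjacent vertices `a` and `z` have the same colour for `c ∈ C (z w)`. The same holds with the roles
   exchanged.
3. If `d ∈ D (a b)` and all neighbours in `G` of a vertex `v` have the colour `d (a)` then `v` can be moved
   to some other class of `d`, which remains `r`-colourable in `G ∪ H`: if `v` has a neighbour `y` in `H`
   that is not in the new class `B` take `c ∈ C (y w)`; by 2, with the roles exchanged, all neighbours
   of `v` in `H`, except `y`, have the colour `c (v)`, and it suffices to change the colour of `v`.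
4. If `a e` and `a z` are different edges of `G` and `c ∈ C (a e)` then `c (z) = c (y)` for all neighbours
   `y` of `z` in `H`. Otherwise take `d ∈ D (z y)`. By 1 and 2, `a` and all its neighbours in `G` have the
   colour `d (z)`. Without `a` this class is `r`-colourable in `G ∪ H`, by `c`, and `a` can be moved to
   some other class by 3.
5. Take `d ∈ D (a b)`. By 3 some neighbour `e` of `a` in `G` is not in the class of `a`. Take `c ∈ C (a e)`
   and let `Z` be the set of the neighbours of `a` in `G` that are in the class of `a`. Move all of `Z` to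
   some other class `B`, and change the colours of `Z` in `c` by a cyclic permutation. By 2 there are no
   edges of `G` between `Z` and `B`, and by 4 for all edges of `H` between `Z` and `B` the ends
   have the same colour in `c`. So `B ∪ Z` is `r`-colourable in `G ∪ H`. In the class of `a` without
   `Z` there are no neighbours of `a` in `G`, and it is `r`-colourable in `G ∪ H`, too. This is a
   contradiction.

The case `k = 3` is a theorem of the starting files (`MP_b82347_co.OddCycle`).
-/

set_option autoImplicit false

namespace Pool.Agent.Results.MP_b82347_co.UnionBound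

open SimpleGraph Pool.Agent.K3h51.UC

/-- A graph `G` with the vertex set `G.verts` (a subgraph of the complete graph on `V`) is `k`-critical
if its chromatic number is `k` and every proper subgraph has a smaller chromatic number. -/
def IsCritical {V : Type} (k : ℕ) (G : (⊤ : SimpleGraph V).Subgraph) : Prop :=
  G.coe.chromaticNumber = k ∧
    ∀ H : (⊤ : SimpleGraph V).Subgraph, H < G → H.coe.chromaticNumber < k

theorem colorable_of_fun {V : Type} (G : (⊤ : SimpleGraph V).Subgraph) (m : ℕ) (φ : V → Fin m)
    (h : ∀ a b, G.Adj a b → φ a ≠ φ b) : G.coe.Colorable m :=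
  ⟨SimpleGraph.Coloring.mk (fun v => φ v.1) (by
    intro a b hab
    exact h _ _ hab)⟩

theorem fun_of_colorable {V : Type} (G : (⊤ : SimpleGraph V).Subgraph) (m : ℕ) (hm : 0 < m)
    (h : G.coe.Colorable m) : ∃ φ : V → Fin m, ∀ a b, G.Adj a b → φ a ≠ φ b := by
  classical
  obtain ⟨c⟩ := h
  refine ⟨fun v => if hv : v ∈ G.verts then c ⟨v, hv⟩ else ⟨0, hm⟩, ?_⟩
  intro a b hab
  have ha := G.edge_vert hab
  have hb := G.edge_vert hab.symm
  simp only [ha, hb, dif_pos]
  exact c.valid (show G.coe.Adj ⟨a, ha⟩ ⟨b, hb⟩ from hab)

theorem colorable_of_lt {V : Type} [Finite V] (G : (⊤ : SimpleGraph V).Subgraph) (k : ℕ)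
    (h : G.coe.chromaticNumber < ((k + 1 : ℕ) : ℕ∞)) : G.coe.Colorable k := by
  have h1 : G.coe.chromaticNumber ≤ (k : ℕ∞) := by
    have : ((k + 1 : ℕ) : ℕ∞) = (k : ℕ∞) + 1 := by push_cast; rfl
    rw [this] at h
    exact Order.le_of_lt_add_one h
  exact SimpleGraph.chromaticNumber_le_iff_colorable.1 h1

/-- A critical graph, as a graph on the whole type. -/
theorem ec_of_critical {V : Type} [Finite V] {m : ℕ} (hm : 0 < m)
    (G : (⊤ : SimpleGraph V).Subgraph) (hG : IsCritical (m + 1) G) : EC G.spanningCoe m where
  no := by
    rintro ⟨φ, hφ⟩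
    have h := (colorable_of_fun G m φ fun a b hab => hφ a b hab).chromaticNumber_le
    rw [hG.1] at h
    have h2 : m + 1 ≤ m := by exact_mod_cast h
    omega
  ex := by
    intro x y hxy
    have hlt : G.deleteEdges {s(x, y)} < G := by
      refine lt_of_le_of_ne (G.deleteEdges_le _) ?_
      intro h
      have h2 : (G.deleteEdges {s(x, y)}).Adj x y := by rw [h]; exact hxy
      rw [Subgraph.deleteEdges_adj] at h2
      exact h2.2 rfl
    obtain ⟨φ, hφ⟩ := fun_of_colorable _ m hm (colorable_of_lt _ m (hG.2 _ hlt))
    refine ⟨φ, fun a b hab hne => hφ a b ?_⟩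
    rw [Subgraph.deleteEdges_adj]
    exact ⟨hab, hne⟩

theorem union_colorable {V : Type} [Finite V] {r s : ℕ} (hr : 2 ≤ r) (hs : 3 ≤ s)
    (G₁ G₂ : (⊤ : SimpleGraph V).Subgraph) (h1 : IsCritical (r + 1) G₁)
    (h2 : IsCritical (s + 1) G₂) : (G₁ ⊔ G₂).coe.Colorable (r * s) := by
  by_contra hcol
  have hnp : NP G₁.spanningCoe G₂.spanningCoe r s := by
    intro c q
    by_contra hno
    push Not at hno
    apply hcol
    refine colorable_of_fun _ _ (fun v => finProdFinEquiv (c v, q v)) ?_
    intro a b hab heq
    have h3 := finProdFinEquiv.injective heq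
    have h4 : c a = c b := congrArg Prod.fst h3
    have h5 : q a = q b := congrArg Prod.snd h3
    rw [Subgraph.sup_adj] at hab
    exact hno a b hab h4 h5
  have hP : Pair G₁.spanningCoe G₂.spanningCoe r s :=
    { g := ec_of_critical (by omega) G₁ h1
      h := ec_of_critical (by omega) G₂ h2
      np := hnp
      hr := hr
      hs := by omega
      hrs := by nlinarith }
  exact hP.false hs

/-- **For all `k ≥ 3` and `l ≥ 4` the union of a `k`-critical graph and an `l`-critical graph has
chromatic number at most `(k - 1) * (l - 1)`.** -/
theorem result : ∀ k l : ℕ, 3 ≤ k → 4 ≤ l → ∀ (V : Type) [Finite V]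
    (G₁ G₂ : (⊤ : SimpleGraph V).Subgraph), IsCritical k G₁ → IsCritical l G₂ →
      (G₁ ⊔ G₂).coe.chromaticNumber ≤ (((k - 1) * (l - 1) : ℕ) : ℕ∞) := by
  intro k l hk hl V _ G₁ G₂ h1 h2
  obtain ⟨r, rfl⟩ : ∃ r, k = r + 1 := ⟨k - 1, by omega⟩
  obtain ⟨s, rfl⟩ : ∃ s, l = s + 1 := ⟨l - 1, by omega⟩
  have h := (union_colorable (r := r) (s := s) (by omega) (by omega) G₁ G₂ h1 h2).chromaticNumber_le
  simpa using h

end Pool.Agent.Results.MP_b82347_co.UnionBound
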